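import Mathlib

/-!
# Cycles over an algebra (A. Connes)
-/

set_option autoImplicit false

namespace Pool.Agent.H23R2.Ch

/-- `(Ω, δ, T)` is a cycle of dimension `N` with values in the `k`-module `M`: `Ω` is a graded
`k`-algebra with homogeneous components `𝒜 i`, `δ` is a differential of degree one, and `T` is a
closed graded trace which vanishes outside degree `N`. -/
structure IsCycle {k : Type*} [CommRing k] {Ω : Type*} [Ring Ω] [Algebra k Ω]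
    {M : Type*} [AddCommGroup M] [Module k M] (N : ℕ) (𝒜 : ℕ → Submodule k Ω) [GradedAlgebra 𝒜]
    (δ : Ω →ₗ[k] Ω) (T : Ω →ₗ[k] M) : Prop where
  /-- `δ` has degree one -/
  deg : ∀ i, ∀ x ∈ 𝒜 i, δ x ∈ 𝒜 (i + 1)
  /-- `δ ∘ δ = 0` -/
  sq : ∀ x, δ (δ x) = 0
  /-- graded Leibniz rule -/
  leibniz : ∀ i, ∀ x ∈ 𝒜 i, ∀ y, δ (x * y) = δ x * y + (-1) ^ i * (x * δ y)
  /-- `T` is closed -/
  closed : ∀ x, T (δ x) = 0
  /-- `T` is a graded trace -/
  trace : ∀ i j, ∀ x ∈ 𝒜 i, ∀ y ∈ 𝒜 j, T (x * y) = T ((-1) ^ (i * j) * (y * x))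
  /-- `T` lives in degree `N` -/
  dim : ∀ i, i ≠ N → ∀ x ∈ 𝒜 i, T x = 0

/-- `M` is separated in the `p`-adic topology -/
def Sep (M : Type*) [AddCommGroup M] (p : ℕ) : Prop :=
  ∀ x : M, (∀ m : ℕ, ∃ y : M, p ^ m • y = x) → x = 0

end Pool.Agent.H23R2.Ch
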