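import Mathlib

/-!
# Polynomial lifting of idempotents, and a recursion
-/

set_option autoImplicit false

namespace Pool.Agent.H23R2.Ch

open Finset

/-- the lifting polynomial -/
def lp {A : Type*} [Ring A] (n : ℕ) (x : A) : A :=
  ∑ i ∈ range (n + 1), ((2 * n + 1).choose i) • ((x - x * x) ^ i * x ^ (2 * (n - i) + 1))

lemma lp_comm {A : Type*} [CommRing A] (n : ℕ) (x : A) :
    ∃ Q : A, lp n x * lp n x - lp n x = Q * (x - x * x) ^ (n + 1) := by
  have e1 : lp n x = ∑ i ∈ range (n + 1), x ^ (2 * n + 1 - i) * (1 - x) ^ i *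
      ((2 * n + 1).choose i : A) := by
    unfold lp
    refine Finset.sum_congr rfl fun i hi => ?_
    have hi' : i ≤ n := by
      have := Finset.mem_range.mp hi
      omega
    rw [nsmul_eq_mul, show x - x * x = x * (1 - x) by ring, mul_pow,
      show 2 * n + 1 - i = i + (2 * (n - i) + 1) by omega, pow_add x i]
    ring
  have e2 : (1 : A) = ∑ i ∈ range (2 * n + 1 + 1), x ^ (2 * n + 1 - i) * (1 - x) ^ i *
      ((2 * n + 1).choose i : A) := by
    have h := add_pow (1 - x) x (2 * n + 1)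
    rw [sub_add_cancel, one_pow] at h
    exact h.trans (Finset.sum_congr rfl fun i _ => by ring)
  have h1 : x ^ (n + 1) ∣ lp n x := by
    rw [e1]
    refine Finset.dvd_sum fun i hi => ?_
    have hi' : i ≤ n := by
      have := Finset.mem_range.mp hi
      omega
    rw [mul_assoc]
    exact Dvd.dvd.mul_right (pow_dvd_pow x (by omega)) _
  have h2 : (1 - x) ^ (n + 1) ∣ 1 - lp n x := by
    have e3 : 1 - lp n x = ∑ i ∈ Ico (n + 1) (2 * n + 1 + 1), x ^ (2 * n + 1 - i) * (1 - x) ^ i *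
      ((2 * n + 1).choose i : A) := by
      rw [Finset.sum_Ico_eq_sub _ (by omega), ← e2, ← e1]
    rw [e3]
    refine Finset.dvd_sum fun i hi => ?_
    have hi' : n + 1 ≤ i := (Finset.mem_Ico.mp hi).1
    exact Dvd.dvd.mul_right (Dvd.dvd.mul_left (pow_dvd_pow _ hi') _) _
  obtain ⟨a, ha⟩ := h1
  obtain ⟨b, hb⟩ := h2
  refine ⟨- (a * b), ?_⟩
  have h3 : lp n x * (1 - lp n x) = (x - x * x) ^ (n + 1) * (a * b) := by
    rw [hb]
    nth_rewrite 1 [ha]
    rw [show x - x * x = x * (1 - x) by ring, mul_pow]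
    ring
  have h4 : lp n x * lp n x - lp n x = - (lp n x * (1 - lp n x)) := by ring
  rw [h4, h3]
  ring

lemma lp_map {A B : Type*} [Ring A] [Ring B] (f : A →+* B) (n : ℕ) (x : A) :
    f (lp n x) = lp n (f x) := by
  simp [lp, map_sum, map_mul, map_pow, map_sub]

lemma lp_ring {A : Type*} [Ring A] (n : ℕ) (x : A) :
    ∃ Q : A, lp n x * lp n x - lp n x = Q * (x - x * x) ^ (n + 1) := by
  obtain ⟨Q, hQ⟩ := lp_comm n (Polynomial.X : Polynomial ℤ)
  refine ⟨Polynomial.aeval x Q, ?_⟩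
  have h := congrArg (Polynomial.aeval x) hQ
  have h2 : Polynomial.aeval x (lp n (Polynomial.X : Polynomial ℤ)) = lp n x := by
    have := lp_map (Polynomial.aeval x : Polynomial ℤ →ₐ[ℤ] A).toRingHom n Polynomial.X
    simpa using this
  rw [map_sub, map_mul, map_mul, map_pow, map_sub, map_mul, Polynomial.aeval_X, h2] at h
  exact h

lemma alt_sum (N n : ℕ) : ∑ i ∈ range (n + 1), (-1 : ℤ) ^ i * ((N + 1).choose i : ℤ) =
    (-1) ^ n * (N.choose n : ℤ) := by
  induction n with
  | zero => simp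
  | succ n ih =>
    rw [Finset.sum_range_succ, ih, Nat.choose_succ_succ]
    push_cast
    ring

lemma alt_sum' (n : ℕ) : ∑ i ∈ range (n + 1), ((2 * n + 1).choose i : ℤ) * (-1) ^ (n - i) =
    (Nat.centralBinom n : ℤ) := by
  have h1 : ∑ i ∈ range (n + 1), ((2 * n + 1).choose i : ℤ) * (-1) ^ (n - i) =
      (-1) ^ n * ∑ i ∈ range (n + 1), (-1 : ℤ) ^ i * ((2 * n + 1).choose i : ℤ) := by
    rw [Finset.mul_sum]
    refine Finset.sum_congr rfl fun i hi => ?_
    have hi' : i ≤ n := by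
      have := Finset.mem_range.mp hi
      omega
    have h2 : (-1 : ℤ) ^ n = (-1) ^ (n - i) * (-1) ^ i := by
      rw [← pow_add, Nat.sub_add_cancel hi']
    have h3 : (-1 : ℤ) ^ i * (-1) ^ i = 1 := by
      rw [← mul_pow]; simp
    rw [h2]
    linear_combination (-(((2 * n + 1).choose i : ℤ) * (-1) ^ (n - i))) * h3
  rw [h1, alt_sum, ← mul_assoc, ← mul_pow]
  simp [Nat.centralBinom]

lemma t_rec {M : Type*} [AddCommGroup M] (n : ℕ) (t : ℕ → ℕ → M)
    (h2 : ∀ i m, t i (m + 2) = t i (m + 1) - t (i + 1) m) (h0 : ∀ i, t i 0 = 0)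
    (h1 : ∀ i, i < n → t i 1 = 0) (r : ℕ) (hr : r ≤ n) :
    (∀ m, m ≤ 2 * r → t (n - r) m = 0) ∧ t (n - r) (2 * r + 1) = ((-1 : ℤ) ^ r) • t n 1 := by
  induction r with
  | zero =>
    refine ⟨fun m hm => ?_, by simp⟩
    obtain rfl : m = 0 := by omega
    exact h0 _
  | succ r ih =>
    obtain ⟨ih1, ih2⟩ := ih (by omega)
    have e : n - (r + 1) + 1 = n - r := by omega
    have hz : ∀ m, m ≤ 2 * (r + 1) → t (n - (r + 1)) m = 0 := by
      intro m
      induction m using Nat.strong_induction_on with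
      | _ m ihm =>
        intro hm
        match m, ihm, hm with
        | 0, _, _ => exact h0 _
        | 1, _, _ => exact h1 _ (by omega)
        | m + 2, ihm, hm =>
          rw [h2, e, ihm (m + 1) (by omega) (by omega), ih1 m (by omega), sub_zero]
    refine ⟨hz, ?_⟩
    rw [show 2 * (r + 1) + 1 = (2 * r + 1) + 2 by ring, h2, e, ih2,
      hz _ (by omega), zero_sub, pow_succ]
    simp

lemma t_sum {M : Type*} [AddCommGroup M] (n : ℕ) (t : ℕ → ℕ → M)
    (h2 : ∀ i m, t i (m + 2) = t i (m + 1) - t (i + 1) m) (h0 : ∀ i, t i 0 = 0)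
    (h1 : ∀ i, i < n → t i 1 = 0) :
    ∑ i ∈ range (n + 1), ((2 * n + 1).choose i) • t i (2 * (n - i) + 1) =
      (Nat.centralBinom n) • t n 1 := by
  have e1 : ∀ i ∈ range (n + 1), ((2 * n + 1).choose i) • t i (2 * (n - i) + 1) =
      (((2 * n + 1).choose i : ℤ) * (-1) ^ (n - i)) • t n 1 := by
    intro i hi
    have hi' : i ≤ n := by
      have := Finset.mem_range.mp hi
      omega
    have h3 := (t_rec n t h2 h0 h1 (n - i) (by omega)).2
    rw [show n - (n - i) = i by omega] at h3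
    rw [h3, mul_smul, natCast_zsmul]
  rw [Finset.sum_congr rfl e1, ← Finset.sum_smul, alt_sum', natCast_zsmul]

end Pool.Agent.H23R2.Ch
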