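import Pool.Agent.H23R2.Ch.Main
import Pool.Agent.H23R2.Ch.Lift
import Pool.Agent.H23R2.Ch.Defs

/-!
# The Fedosov representation attached to a cycle over a group algebra
-/

set_option autoImplicit false
set_option linter.unusedSectionVars false

namespace Pool.Agent.H23R2.Ch

open Finset Pool.Agent.H23R2 Pool.Agent.H23R2.Cyc

variable {k : Type*} [CommRing k] {G : Type*} [Group G] {M : Type*} [AddCommGroup M] [Module k M]
  {d : Type*} [Fintype d] [DecidableEq d] {Ω : Type*} [Ring Ω] [Algebra k Ω]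
  {𝒜 : ℕ → Submodule k Ω} [GradedAlgebra 𝒜] {δ : Ω →ₗ[k] Ω} {T : Ω →ₗ[k] M} {N : ℕ}

/-- even elements of degree at least `2 j` -/
def Ev (𝒜 : ℕ → Submodule k Ω) (j : ℕ) : Submodule k Ω := ⨆ i, 𝒜 (2 * (j + i))

lemma mem_Ev (j i : ℕ) (h : j ≤ i) {x : Ω} (hx : x ∈ 𝒜 (2 * i)) : x ∈ Ev 𝒜 j := by
  obtain ⟨c, rfl⟩ := Nat.exists_eq_add_of_le h
  exact Submodule.mem_iSup_of_mem c hx

lemma Ev_induction (j : ℕ) (P : Ω → Prop) (h0 : P 0) (hadd : ∀ x y, P x → P y → P (x + y))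
    (hmem : ∀ i, j ≤ i → ∀ x ∈ 𝒜 (2 * i), P x) {x : Ω} (hx : x ∈ Ev 𝒜 j) : P x :=
  Submodule.iSup_induction _ (motive := P) hx (fun i y hy => hmem (j + i) (by omega) y hy) h0 hadd

lemma Ev_mono {j j' : ℕ} (h : j ≤ j') {x : Ω} (hx : x ∈ Ev 𝒜 j') : x ∈ Ev 𝒜 j := by
  refine Ev_induction j' (fun x => x ∈ Ev 𝒜 j) (Submodule.zero_mem _)
    (fun x y hx hy => Submodule.add_mem _ hx hy) (fun i hi x hx => ?_) hx
  exact mem_Ev j i (h.trans hi) hx

lemma mul_mem_deg {i j : ℕ} {x y : Ω} (hx : x ∈ 𝒜 i) (hy : y ∈ 𝒜 j) : x * y ∈ 𝒜 (i + j) :=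
  SetLike.GradedMul.mul_mem hx hy

lemma leib (h : IsCycle N 𝒜 δ T) {x : Ω} (hx : x ∈ Ev 𝒜 0) (y : Ω) :
    δ (x * y) = δ x * y + x * δ y := by
  refine Ev_induction 0 (fun x => δ (x * y) = δ x * y + x * δ y) (by simp) ?_ ?_ hx
  · intro a b ha hb
    simp only [add_mul, map_add, ha, hb]
    abel
  · intro i _ x hx
    rw [h.leibniz _ x hx, (even_two_mul i).neg_one_pow, one_mul]

lemma leib_odd (h : IsCycle N 𝒜 δ T) {x : Ω} (hx : x ∈ Ev 𝒜 0) (y : Ω) :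
    δ (δ x * y) = - (δ x * δ y) := by
  refine Ev_induction 0 (fun x => δ (δ x * y) = - (δ x * δ y)) (by simp) ?_ ?_ hx
  · intro a b ha hb
    simp only [add_mul, map_add, ha, hb]
    abel
  · intro i _ x hx
    rw [h.leibniz _ (δ x) (h.deg _ x hx), h.sq, zero_mul, zero_add, pow_succ,
      (even_two_mul i).neg_one_pow]
    simp

lemma dd (h : IsCycle N 𝒜 δ T) {x : Ω} (hx : x ∈ Ev 𝒜 0) (y : Ω) :
    δ (δ x * δ y) = 0 := by
  rw [leib_odd h hx, h.sq, mul_zero, neg_zero]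

lemma deg_zero_Ev {x : Ω} (hx : x ∈ 𝒜 0) : x ∈ Ev 𝒜 0 := mem_Ev 0 0 le_rfl hx

lemma mul_Ev {x : Ω} (hx : x ∈ 𝒜 0) (j : ℕ) {y : Ω} (hy : y ∈ Ev 𝒜 j) : x * y ∈ Ev 𝒜 j := by
  refine Ev_induction j (fun y => x * y ∈ Ev 𝒜 j) ?_ ?_ ?_ hy
  · simp
  · intro a b ha hb
    rw [mul_add]
    exact Submodule.add_mem _ ha hb
  · intro i hi y hy
    refine mem_Ev j i hi ?_
    have := mul_mem_deg hx hy
    rwa [zero_add] at this

lemma dmul_Ev (h : IsCycle N 𝒜 δ T) {x : Ω} (hx : x ∈ 𝒜 0) (j : ℕ) {y : Ω} (hy : y ∈ Ev 𝒜 j) :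
    δ x * δ y ∈ Ev 𝒜 (j + 1) := by
  refine Ev_induction j (fun y => δ x * δ y ∈ Ev 𝒜 (j + 1)) ?_ ?_ ?_ hy
  · simp
  · intro a b ha hb
    rw [map_add, mul_add]
    exact Submodule.add_mem _ ha hb
  · intro i hi y hy
    refine mem_Ev (j + 1) (i + 1) (by omega) ?_
    have := mul_mem_deg (h.deg _ x hx) (h.deg _ y hy)
    rwa [show 0 + 1 + (2 * i + 1) = 2 * (i + 1) by ring] at this

lemma mul_comm_T (h : IsCycle N 𝒜 δ T) {x y : Ω} (hx : x ∈ Ev 𝒜 0) (hy : y ∈ Ev 𝒜 0) :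
    T (x * y) = T (y * x) := by
  refine Ev_induction 0 (fun x => T (x * y) = T (y * x)) (by simp) ?_ ?_ hx
  · intro a b ha hb
    simp only [add_mul, mul_add, map_add, ha, hb]
  · intro i _ x hx
    refine Ev_induction 0 (fun y => T (x * y) = T (y * x)) (by simp) ?_ ?_ hy
    · intro a b ha hb
      simp only [add_mul, mul_add, map_add, ha, hb]
    · intro j _ y hy
      rw [h.trace _ _ x hx y hy, show 2 * i * (2 * j) = 2 * (i * (2 * j)) by ring,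
        (even_two_mul _).neg_one_pow, one_mul]

lemma T_dd (h : IsCycle N 𝒜 δ T) {x : Ω} (hx : x ∈ Ev 𝒜 0) (y : Ω) : T (δ x * δ y) = 0 := by
  have h1 := leib h hx (δ y)
  rw [h.sq, mul_zero, add_zero] at h1
  rw [← h1, h.closed]

lemma T_Ev {n : ℕ} (h : IsCycle (2 * n) 𝒜 δ T) {x : Ω} (hx : x ∈ Ev 𝒜 (n + 1)) : T x = 0 := by
  refine Ev_induction (n + 1) (fun x => T x = 0) (map_zero _) ?_ ?_ hx
  · intro a b ha hb
    rw [map_add, ha, hb, add_zero]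
  · intro i hi x hx
    exact h.dim _ (by omega) x hx

/-- the operator `ω ↦ a ω - δa δω` -/
noncomputable def Lop (δ : Ω →ₗ[k] Ω) : Ω →ₗ[k] Module.End k Ω :=
  LinearMap.mul k Ω - (LinearMap.lcomp k Ω δ).comp ((LinearMap.mul k Ω).comp δ)

lemma Lop_apply (δ : Ω →ₗ[k] Ω) (a x : Ω) : Lop δ a x = a * x - δ a * δ x := by
  simp [Lop]

/-- the representation of the free monoid on `G` -/
noncomputable def Wm (δ : Ω →ₗ[k] Ω) (ρ : MonoidAlgebra k G →ₐ[k] Ω) :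
    FreeMonoid G →* Module.End k Ω :=
  FreeMonoid.lift fun g => Lop δ (ρ (MonoidAlgebra.single g 1))

/-- its linear extension -/
noncomputable def Wa (δ : Ω →ₗ[k] Ω) (ρ : MonoidAlgebra k G →ₐ[k] Ω) :
    MonoidAlgebra k (FreeMonoid G) →ₐ[k] Module.End k Ω :=
  MonoidAlgebra.lift k (Module.End k Ω) (FreeMonoid G) (Wm δ ρ)

/-- the projection of the free monoid -/
def pr (G : Type*) [Group G] : FreeMonoid G →* G := FreeMonoid.lift id

variable {ρ : MonoidAlgebra k G →ₐ[k] Ω}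

lemma Wm_cons (δ : Ω →ₗ[k] Ω) (ρ : MonoidAlgebra k G →ₐ[k] Ω) (g : G) (w : FreeMonoid G) (x : Ω) :
    Wm δ ρ (FreeMonoid.of g * w) x = Lop δ (ρ (MonoidAlgebra.single g 1)) (Wm δ ρ w x) := by
  rw [map_mul]
  simp [Wm]

lemma pr_cons (g : G) (w : FreeMonoid G) : pr G (FreeMonoid.of g * w) = g * pr G w := by
  simp [pr]

lemma Wm_Ev (h : IsCycle N 𝒜 δ T) (hρ : ∀ a, ρ a ∈ 𝒜 0) (j : ℕ) (w : FreeMonoid G) {x : Ω}
    (hx : x ∈ Ev 𝒜 j) : Wm δ ρ w x ∈ Ev 𝒜 j := by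
  induction w using FreeMonoid.inductionOn' with
  | one => simpa using hx
  | of_mul g w ih =>
    rw [Wm_cons, Lop_apply]
    exact Submodule.sub_mem _ (mul_Ev (hρ _) j ih)
      (Ev_mono (Nat.le_succ j) (dmul_Ev h (hρ _) j ih))

lemma Wm_sub (h : IsCycle N 𝒜 δ T) (hρ : ∀ a, ρ a ∈ 𝒜 0) (j : ℕ) (w : FreeMonoid G) {x : Ω}
    (hx : x ∈ Ev 𝒜 j) :
    Wm δ ρ w x - ρ (MonoidAlgebra.single (pr G w) 1) * x ∈ Ev 𝒜 (j + 1) := by
  induction w using FreeMonoid.inductionOn' with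
  | one =>
    have : ρ (MonoidAlgebra.single (1 : G) (1 : k)) = 1 := by
      rw [← MonoidAlgebra.one_def, map_one]
    simp [this]
  | of_mul g w ih =>
    rw [Wm_cons, Lop_apply, pr_cons]
    have e : MonoidAlgebra.single (g * pr G w) (1 : k) =
        MonoidAlgebra.single g 1 * MonoidAlgebra.single (pr G w) 1 := by
      rw [MonoidAlgebra.single_mul_single, one_mul]
    rw [e, map_mul]
    have h1 : ρ (MonoidAlgebra.single g 1) * Wm δ ρ w x -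
        δ (ρ (MonoidAlgebra.single g 1)) * δ (Wm δ ρ w x) -
        ρ (MonoidAlgebra.single g 1) * ρ (MonoidAlgebra.single (pr G w) 1) * x =
        ρ (MonoidAlgebra.single g 1) * (Wm δ ρ w x - ρ (MonoidAlgebra.single (pr G w) 1) * x) -
        δ (ρ (MonoidAlgebra.single g 1)) * δ (Wm δ ρ w x) := by
      noncomm_ring
    rw [h1]
    exact Submodule.sub_mem _ (mul_Ev (hρ _) _ ih)
      (dmul_Ev h (hρ _) j (Wm_Ev h hρ j w hx))

lemma Wm_formula (h : IsCycle N 𝒜 δ T) (hρ : ∀ a, ρ a ∈ 𝒜 0) (w : FreeMonoid G) (x : Ω) :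
    Wm δ ρ w x = Wm δ ρ w 1 * x - δ (Wm δ ρ w 1) * δ x := by
  have h11 : (1 : Ω) ∈ Ev 𝒜 0 := deg_zero_Ev (SetLike.GradedOne.one_mem)
  induction w using FreeMonoid.inductionOn' with
  | one =>
    have h1 : δ (1 : Ω) = 0 := by
      have := leib h h11 1
      simpa using this
    simp [h1]
  | of_mul g w ih =>
    rw [Wm_cons, Wm_cons, ih, Lop_apply, Lop_apply]
    have hc := Wm_Ev h hρ 0 w h11
    set c := Wm δ ρ w 1 with hcdef
    set a := ρ (MonoidAlgebra.single g 1) with hadef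
    have ha : a ∈ Ev 𝒜 0 := deg_zero_Ev (hρ _)
    have e1 : δ (c * x - δ c * δ x) = δ c * x + c * δ x := by
      rw [map_sub, dd h hc, leib h hc, sub_zero]
    have e2 : δ (a * c - δ a * δ c) = δ a * c + a * δ c := by
      rw [map_sub, dd h ha, leib h ha, sub_zero]
    rw [e1, e2]
    noncomm_ring

/-- the trace on words -/
noncomputable def Ph (T : Ω →ₗ[k] M) (δ : Ω →ₗ[k] Ω) (ρ : MonoidAlgebra k G →ₐ[k] Ω) :
    FreeMonoid G → M := fun w => T (Wm δ ρ w 1)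

lemma Ph_comm (h : IsCycle N 𝒜 δ T) (hρ : ∀ a, ρ a ∈ 𝒜 0) (v w : FreeMonoid G) :
    Ph T δ ρ (v * w) = Ph T δ ρ (w * v) := by
  have h11 : (1 : Ω) ∈ Ev 𝒜 0 := deg_zero_Ev (SetLike.GradedOne.one_mem)
  have hv := Wm_Ev h hρ 0 v h11
  have hw := Wm_Ev h hρ 0 w h11
  unfold Ph
  rw [map_mul, map_mul, Module.End.mul_apply, Module.End.mul_apply, Wm_formula h hρ v,
    Wm_formula h hρ w (Wm δ ρ v 1), map_sub, map_sub, T_dd h hv, T_dd h hw, mul_comm_T h hv hw]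

lemma ex_Ph (T : Ω →ₗ[k] M) (δ : Ω →ₗ[k] Ω) (ρ : MonoidAlgebra k G →ₐ[k] Ω)
    (x : MonoidAlgebra k (FreeMonoid G)) : ex (Ph T δ ρ) x = T (Wa δ ρ x 1) := by
  induction x using MonoidAlgebra.induction_linear with
  | zero => simp
  | add x y hx hy => rw [map_add, map_add, LinearMap.add_apply, map_add, hx, hy]
  | single w r =>
    rw [ex_single, Wa, MonoidAlgebra.lift_single, LinearMap.smul_apply, map_smul]
    rfl

lemma Wa_Idl (h : IsCycle N 𝒜 δ T) (hρ : ∀ a, ρ a ∈ 𝒜 0) (j : ℕ)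
    {x : MonoidAlgebra k (FreeMonoid G)} (hx : x ∈ Idl k (pr G)) {y : Ω} (hy : y ∈ Ev 𝒜 j) :
    Wa δ ρ x y ∈ Ev 𝒜 (j + 1) := by
  unfold Idl at hx
  induction hx using Submodule.span_induction with
  | zero => simp
  | add a b _ _ ha hb =>
    rw [map_add, LinearMap.add_apply]
    exact Submodule.add_mem _ ha hb
  | smul r a _ ha =>
    rw [map_smul, LinearMap.smul_apply]
    exact Submodule.smul_mem _ _ ha
  | mem x hx =>
    obtain ⟨a, b, hab, rfl⟩ := hx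
    rw [map_sub, LinearMap.sub_apply, Wa, MonoidAlgebra.lift_single, MonoidAlgebra.lift_single,
      one_smul, one_smul]
    have h1 := Wm_sub h hρ j a hy
    have h2 := Wm_sub h hρ j b hy
    rw [← hab] at h2
    have h3 := Submodule.sub_mem _ h1 h2
    rwa [sub_sub_sub_cancel_right] at h3

lemma Wa_Idl_pow (h : IsCycle N 𝒜 δ T) (hρ : ∀ a, ρ a ∈ 𝒜 0) (m : ℕ)
    {x : MonoidAlgebra k (FreeMonoid G)} (hx : x ∈ (Idl k (pr G)) ^ m) (j : ℕ) {y : Ω}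
    (hy : y ∈ Ev 𝒜 j) : Wa δ ρ x y ∈ Ev 𝒜 (j + m) := by
  induction m generalizing x j y with
  | zero =>
    rw [pow_zero, Submodule.mem_one] at hx
    obtain ⟨r, rfl⟩ := hx
    rw [AlgHom.commutes, add_zero]
    simp only [Module.algebraMap_end_apply]
    exact Submodule.smul_mem _ _ hy
  | succ m ih =>
    rw [pow_succ] at hx
    induction hx using Submodule.mul_induction_on' with
    | mem_mul_mem u hu v hv =>
      rw [map_mul, Module.End.mul_apply]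
      have h1 := ih hu (j + 1) (Wa_Idl h hρ j hv hy)
      rwa [show j + 1 + m = j + (m + 1) by ring] at h1
    | add u _ v _ hu hv =>
      rw [map_add, LinearMap.add_apply]
      exact Submodule.add_mem _ hu hv

lemma Ph_kill {n : ℕ} (h : IsCycle (2 * n) 𝒜 δ T) (hρ : ∀ a, ρ a ∈ 𝒜 0) :
    ∀ x ∈ (Idl k (pr G)) ^ (n + 1), ex (Ph T δ ρ) x = 0 := by
  intro x hx
  rw [ex_Ph]
  apply T_Ev h
  have h1 := Wa_Idl_pow h hρ (n + 1) hx 0 (deg_zero_Ev (SetLike.GradedOne.one_mem (A := 𝒜)))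
  rwa [zero_add] at h1

end Pool.Agent.H23R2.Ch
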