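import Pool.Agent.H23R2.Ch.Cycle

/-!
# Vanishing of the pairing of `K_0` of a group algebra with cycles
-/

set_option autoImplicit false
set_option linter.unusedSectionVars false

namespace Pool.Agent.H23R2.Ch

open Finset Pool.Agent.H23R2 Pool.Agent.H23R2.Cyc

variable {k : Type*} [CommRing k] {G : Type*} [Group G] {M : Type*} [AddCommGroup M] [Module k M]
  {d : Type*} [Fintype d] [DecidableEq d] {Ω : Type*} [Ring Ω] [Algebra k Ω]
  {𝒜 : ℕ → Submodule k Ω} [GradedAlgebra 𝒜] {δ : Ω →ₗ[k] Ω} {T : Ω →ₗ[k] M} {N : ℕ}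
  {ρ : MonoidAlgebra k G →ₐ[k] Ω}

/-- `δρ(g_1) ⋯ δρ(g_m)` -/
noncomputable def pf (δ : Ω →ₗ[k] Ω) (ρ : MonoidAlgebra k G →ₐ[k] Ω) (l : List G) : Ω :=
  (l.map fun g => δ (ρ (MonoidAlgebra.single g 1))).prod

lemma delta_one (h : IsCycle N 𝒜 δ T) : δ (1 : Ω) = 0 := by
  have h11 : (1 : Ω) ∈ Ev 𝒜 0 := deg_zero_Ev (SetLike.GradedOne.one_mem)
  have := leib h h11 1
  simpa using this

lemma delta_pf (h : IsCycle N 𝒜 δ T) (hρ : ∀ a, ρ a ∈ 𝒜 0) (l : List G) :
    δ (pf δ ρ l) = 0 := by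
  induction l with
  | nil => simpa [pf] using delta_one h
  | cons g l ih =>
    have h1 : pf δ ρ (g :: l) = δ (ρ (MonoidAlgebra.single g 1)) * pf δ ρ l := by simp [pf]
    rw [h1, leib_odd h (deg_zero_Ev (hρ _)), ih, mul_zero, neg_zero]

lemma pf_deg (h : IsCycle N 𝒜 δ T) (hρ : ∀ a, ρ a ∈ 𝒜 0) (l : List G) :
    pf δ ρ l ∈ 𝒜 l.length := by
  induction l with
  | nil => simpa [pf] using SetLike.GradedOne.one_mem (A := 𝒜)
  | cons g l ih =>
    have h1 : pf δ ρ (g :: l) = δ (ρ (MonoidAlgebra.single g 1)) * pf δ ρ l := by simp [pf]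
    rw [h1, List.length_cons, add_comm]
    have := mul_mem_deg (h.deg _ _ (hρ (MonoidAlgebra.single g 1))) ih
    rwa [zero_add] at this

/-- span of the forms of degree `j` and `G`-degree `g` -/
noncomputable def Sf (δ : Ω →ₗ[k] Ω) (ρ : MonoidAlgebra k G →ₐ[k] Ω) (j : ℕ) (g : G) :
    Submodule k Ω :=
  Submodule.span k {x | ∃ (a : G) (l : List G), l.length = j ∧ a * l.prod = g ∧
    ρ (MonoidAlgebra.single a 1) * pf δ ρ l = x}

/-- even forms of `G`-degree `g` -/
noncomputable def Se (δ : Ω →ₗ[k] Ω) (ρ : MonoidAlgebra k G →ₐ[k] Ω) (g : G) : Submodule k Ω :=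
  ⨆ j, Sf δ ρ (2 * j) g

lemma Lop_Se (h : IsCycle N 𝒜 δ T) (hρ : ∀ a, ρ a ∈ 𝒜 0) (b g : G) {x : Ω}
    (hx : x ∈ Se δ ρ g) : Lop δ (ρ (MonoidAlgebra.single b 1)) x ∈ Se δ ρ (b * g) := by
  refine Submodule.iSup_induction _
    (motive := fun x => Lop δ (ρ (MonoidAlgebra.single b 1)) x ∈ Se δ ρ (b * g)) hx ?_ ?_ ?_
  · intro j x hx
    refine Submodule.span_induction
      (p := fun x _ => Lop δ (ρ (MonoidAlgebra.single b 1)) x ∈ Se δ ρ (b * g)) ?_ ?_ ?_ ?_ hx
    · rintro _ ⟨a, l, hl, hal, rfl⟩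
      rw [Lop_apply]
      refine Submodule.sub_mem _ ?_ ?_
      · refine Submodule.mem_iSup_of_mem j (Submodule.subset_span ⟨b * a, l, hl, ?_, ?_⟩)
        · rw [mul_assoc, hal]
        · rw [← mul_assoc, ← map_mul, MonoidAlgebra.single_mul_single, one_mul]
      · refine Submodule.mem_iSup_of_mem (j + 1)
          (Submodule.subset_span ⟨1, b :: a :: l, ?_, ?_, ?_⟩)
        · simp [hl]
          ring
        · rw [List.prod_cons, List.prod_cons, hal, one_mul]
        · rw [leib h (deg_zero_Ev (hρ _)), delta_pf h hρ, mul_zero, add_zero]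
          rw [← MonoidAlgebra.one_def, map_one, one_mul]
          simp [pf]
    · rw [map_zero]; exact Submodule.zero_mem _
    · intro x y _ _ hx hy
      rw [map_add]; exact Submodule.add_mem _ hx hy
    · intro r x _ hx
      rw [map_smul]; exact Submodule.smul_mem _ _ hx
  · rw [map_zero]; exact Submodule.zero_mem _
  · intro x y hx hy
    rw [map_add]; exact Submodule.add_mem _ hx hy

lemma Wm_Se (h : IsCycle N 𝒜 δ T) (hρ : ∀ a, ρ a ∈ 𝒜 0) (w : FreeMonoid G) :
    Wm δ ρ w 1 ∈ Se δ ρ (pr G w) := by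
  induction w using FreeMonoid.inductionOn' with
  | one =>
    refine Submodule.mem_iSup_of_mem 0 (Submodule.subset_span ⟨1, [], rfl, ?_, ?_⟩)
    · simp
    · rw [← MonoidAlgebra.one_def, map_one]
      simp [pf]
  | of_mul g w ih =>
    rw [Wm_cons, pr_cons]
    exact Lop_Se h hρ g _ ih

lemma T_Se {n : ℕ} (h : IsCycle (2 * n) 𝒜 δ T) (hρ : ∀ a, ρ a ∈ 𝒜 0) (g : G)
    (hg : ∀ (a : G) (l : List G), l.length = 2 * n → a * l.prod = g →
      T (ρ (MonoidAlgebra.single a 1) * pf δ ρ l) = 0) {x : Ω} (hx : x ∈ Se δ ρ g) : T x = 0 := by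
  refine Submodule.iSup_induction _ (motive := fun x => T x = 0) hx ?_ (map_zero _) ?_
  · intro j x hx
    refine Submodule.span_induction (p := fun x _ => T x = 0) ?_ (map_zero _) ?_ ?_ hx
    · rintro _ ⟨a, l, hl, hal, rfl⟩
      by_cases hj : j = n
      · subst hj
        exact hg a l hl hal
      · refine h.dim (2 * j) (by omega) _ ?_
        have := mul_mem_deg (hρ (MonoidAlgebra.single a 1)) (pf_deg h hρ l)
        rwa [hl, zero_add] at this
    · intro x y _ _ hx hy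
      rw [map_add, hx, hy, add_zero]
    · intro r x _ hx
      rw [map_smul, hx, smul_zero]
  · intro x y hx hy
    rw [map_add, hx, hy, add_zero]

/-! ### Evaluation on the lifted idempotent -/

/-- the linear section `k[G] → k[F]` -/
noncomputable def sec (k G : Type*) [CommRing k] [Group G] :
    MonoidAlgebra k G →ₗ[k] MonoidAlgebra k (FreeMonoid G) :=
  ex fun g => MonoidAlgebra.single (FreeMonoid.of g) 1

lemma sec_single (g : G) (r : k) :
    sec k G (MonoidAlgebra.single g r) = MonoidAlgebra.single (FreeMonoid.of g) r := by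
  rw [sec, ex_single, ← single_eq_smul]

lemma Wa_sec (δ : Ω →ₗ[k] Ω) (ρ : MonoidAlgebra k G →ₐ[k] Ω) (a : MonoidAlgebra k G) :
    Wa δ ρ (sec k G a) = Lop δ (ρ a) := by
  induction a using MonoidAlgebra.induction_linear with
  | zero => simp
  | add x y hx hy => rw [map_add, map_add, map_add, map_add, hx, hy]
  | single g r =>
    rw [sec_single, Wa, MonoidAlgebra.lift_single, single_eq_smul g r, map_smul, map_smul]
    congr 1

lemma sec_Idl (a b : MonoidAlgebra k G) :
    sec k G (a * b) - sec k G a * sec k G b ∈ Idl k (pr G) := by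
  induction a using MonoidAlgebra.induction_linear with
  | zero => simp
  | add x y hx hy =>
    have : sec k G ((x + y) * b) - sec k G (x + y) * sec k G b =
        (sec k G (x * b) - sec k G x * sec k G b) + (sec k G (y * b) - sec k G y * sec k G b) := by
      rw [add_mul, map_add, map_add, add_mul]; abel
    rw [this]
    exact Submodule.add_mem _ hx hy
  | single g r =>
    induction b using MonoidAlgebra.induction_linear with
    | zero => simp
    | add x y hx hy =>
      have : sec k G (MonoidAlgebra.single g r * (x + y)) -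
          sec k G (MonoidAlgebra.single g r) * sec k G (x + y) =
          (sec k G (MonoidAlgebra.single g r * x) -
            sec k G (MonoidAlgebra.single g r) * sec k G x) +
          (sec k G (MonoidAlgebra.single g r * y) -
            sec k G (MonoidAlgebra.single g r) * sec k G y) := by
        rw [mul_add, map_add, map_add, mul_add]; abel
      rw [this]
      exact Submodule.add_mem _ hx hy
    | single g' r' =>
      rw [MonoidAlgebra.single_mul_single, sec_single, sec_single, sec_single,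
        MonoidAlgebra.single_mul_single, single_eq_smul (FreeMonoid.of (g * g')),
        single_eq_smul (FreeMonoid.of g * FreeMonoid.of g'), ← smul_sub]
      refine Submodule.smul_mem _ _ (Submodule.subset_span ⟨_, _, ?_, rfl⟩)
      simp [pr]

/-- evaluation of matrices over `k[F]` -/
noncomputable def wM (δ : Ω →ₗ[k] Ω) (ρ : MonoidAlgebra k G →ₐ[k] Ω)
    (Z : Matrix d d (MonoidAlgebra k (FreeMonoid G))) : Matrix d d Ω :=
  Z.map fun z => Wa δ ρ z 1

lemma wM_sub (Z Z' : Matrix d d (MonoidAlgebra k (FreeMonoid G))) :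
    wM δ ρ (Z - Z') = wM δ ρ Z - wM δ ρ Z' := by
  ext i j
  simp [wM]

lemma wM_one : wM δ ρ (1 : Matrix d d (MonoidAlgebra k (FreeMonoid G))) = 1 := by
  ext i j
  simp only [wM, Matrix.map_apply, Matrix.one_apply]
  split_ifs <;> simp

lemma wM_mul (e : Matrix d d (MonoidAlgebra k G))
    (Z : Matrix d d (MonoidAlgebra k (FreeMonoid G))) :
    wM δ ρ (e.map (sec k G) * Z) =
      e.map ρ * wM δ ρ Z - (e.map ρ).map δ * (wM δ ρ Z).map δ := by
  ext i j
  simp only [wM, Matrix.map_apply, Matrix.mul_apply, Matrix.sub_apply, map_sum,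
    LinearMap.sum_apply, map_mul, Module.End.mul_apply, Wa_sec, Lop_apply, Finset.sum_sub_distrib]

lemma map_leib (h : IsCycle N 𝒜 δ T) (A B : Matrix d d Ω) (hA : ∀ i j, A i j ∈ Ev 𝒜 0) :
    (A * B).map δ = A.map δ * B + A * B.map δ := by
  ext i j
  simp only [Matrix.map_apply, Matrix.mul_apply, Matrix.add_apply, map_sum]
  rw [← Finset.sum_add_distrib]
  exact Finset.sum_congr rfl fun l _ => leib h (hA i l) _

lemma map_leib_odd (h : IsCycle N 𝒜 δ T) (A B : Matrix d d Ω) (hA : ∀ i j, A i j ∈ Ev 𝒜 0) :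
    (A.map δ * B).map δ = - (A.map δ * B.map δ) := by
  ext i j
  simp only [Matrix.map_apply, Matrix.mul_apply, Matrix.neg_apply, map_sum]
  rw [← Finset.sum_neg_distrib]
  exact Finset.sum_congr rfl fun l _ => leib_odd h (hA i l) _

lemma map_dd (h : IsCycle N 𝒜 δ T) (A : Matrix d d Ω) : (A.map δ).map δ = 0 := by
  ext i j
  simp [h.sq]

lemma map_sub' (A B : Matrix d d Ω) : (A - B).map δ = A.map δ - B.map δ := by
  ext i j
  simp

lemma wM_Y (h : IsCycle N 𝒜 δ T) (hρ : ∀ a, ρ a ∈ 𝒜 0) (e : Matrix d d (MonoidAlgebra k G))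
    (he : e * e = e) (Z : Matrix d d (MonoidAlgebra k (FreeMonoid G))) :
    wM δ ρ ((e.map (sec k G) - e.map (sec k G) * e.map (sec k G)) * Z) =
      ((e.map ρ).map δ * (e.map ρ).map δ) * wM δ ρ Z := by
  have hE : ∀ i j, (e.map ρ) i j ∈ Ev 𝒜 0 := fun i j => deg_zero_Ev (hρ _)
  have hEE : e.map ρ * e.map ρ = e.map ρ := by
    have h1 := congrArg (fun X : Matrix d d (MonoidAlgebra k G) => X.map ρ) he
    simp only [Matrix.map_mul] at h1
    exact h1
  rw [sub_mul, wM_sub, mul_assoc, wM_mul, wM_mul, wM_mul]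
  set E := e.map ρ with hEdef
  set z := wM δ ρ Z with hz
  have h1 : E.map δ = E.map δ * E + E * E.map δ := by
    conv_lhs => rw [← hEE]
    exact map_leib h E E hE
  have h2 : (E * z - E.map δ * z.map δ).map δ = E.map δ * z + E * z.map δ := by
    rw [map_sub', map_leib h E z hE, map_leib_odd h E _ hE, map_dd h, mul_zero, neg_zero,
      sub_zero]
  rw [h2]
  have h3 : E * z - E.map δ * z.map δ - (E * (E * z - E.map δ * z.map δ) -
      E.map δ * (E.map δ * z + E * z.map δ)) =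
      (E * z - E * E * z) + E.map δ * E.map δ * z +
        ((E.map δ * E + E * E.map δ) - E.map δ) * z.map δ := by
    noncomm_ring
  rw [h3, hEE, ← h1]
  simp

lemma wM_Ypow (h : IsCycle N 𝒜 δ T) (hρ : ∀ a, ρ a ∈ 𝒜 0) (e : Matrix d d (MonoidAlgebra k G))
    (he : e * e = e) (i : ℕ) (Z : Matrix d d (MonoidAlgebra k (FreeMonoid G))) :
    wM δ ρ ((e.map (sec k G) - e.map (sec k G) * e.map (sec k G)) ^ i * Z) =
      ((e.map ρ).map δ * (e.map ρ).map δ) ^ i * wM δ ρ Z := by
  induction i with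
  | zero => simp
  | succ i ih =>
    rw [pow_succ', mul_assoc, wM_Y h hρ e he, ih, pow_succ' (_ * _) i]
    simp only [mul_assoc]

lemma mat_mul_deg {a b : ℕ} {A B : Matrix d d Ω} (hA : ∀ i j, A i j ∈ 𝒜 a)
    (hB : ∀ i j, B i j ∈ 𝒜 b) (i j : d) : (A * B) i j ∈ 𝒜 (a + b) := by
  rw [Matrix.mul_apply]
  exact Submodule.sum_mem _ fun l _ => mul_mem_deg (hA i l) (hB l j)

lemma mat_one_deg (i j : d) : (1 : Matrix d d Ω) i j ∈ 𝒜 0 := by
  rw [Matrix.one_apply]
  split_ifs
  · exact SetLike.GradedOne.one_mem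
  · exact Submodule.zero_mem _

lemma eta_deg (h : IsCycle N 𝒜 δ T) (hρ : ∀ a, ρ a ∈ 𝒜 0) (e : Matrix d d (MonoidAlgebra k G))
    (m : ℕ) (i j : d) : (((e.map ρ).map δ * (e.map ρ).map δ) ^ m) i j ∈ 𝒜 (2 * m) := by
  have h1 : ∀ i j, ((e.map ρ).map δ) i j ∈ 𝒜 1 := by
    intro i j
    have := h.deg 0 _ (hρ (e i j))
    simpa using this
  induction m generalizing i j with
  | zero => simpa using mat_one_deg i j
  | succ m ih =>
    rw [pow_succ, show 2 * (m + 1) = 2 * m + (1 + 1) by ring]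
    exact mat_mul_deg ih (mat_mul_deg h1 h1) i j

lemma T_trace_zero {n m : ℕ} (h : IsCycle (2 * n) 𝒜 δ T) (hm : m ≠ 2 * n) (A : Matrix d d Ω)
    (hA : ∀ i j, A i j ∈ 𝒜 m) : T A.trace = 0 := by
  rw [Matrix.trace, map_sum]
  exact Finset.sum_eq_zero fun i _ => h.dim m hm _ (hA i i)

lemma eta_closed (h : IsCycle N 𝒜 δ T) (hρ : ∀ a, ρ a ∈ 𝒜 0) (e : Matrix d d (MonoidAlgebra k G))
    (m : ℕ) : (((e.map ρ).map δ * (e.map ρ).map δ) ^ m).map δ = 0 := by
  have hE : ∀ i j, (e.map ρ) i j ∈ Ev 𝒜 0 := fun i j => deg_zero_Ev (hρ _)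
  induction m with
  | zero =>
    ext i j
    simp only [pow_zero, Matrix.map_apply, Matrix.one_apply, Matrix.zero_apply]
    split_ifs
    · exact delta_one h
    · simp
  | succ m ih =>
    rw [pow_succ', mul_assoc, map_leib_odd h _ _ hE, map_leib_odd h _ _ hE, ih]
    simp

lemma T_eta {n : ℕ} (hn : 1 ≤ n) (h : IsCycle (2 * n) 𝒜 δ T) (hρ : ∀ a, ρ a ∈ 𝒜 0)
    (e : Matrix d d (MonoidAlgebra k G)) :
    T (((e.map ρ).map δ * (e.map ρ).map δ) ^ n).trace = 0 := by
  have hE : ∀ i j, (e.map ρ) i j ∈ Ev 𝒜 0 := fun i j => deg_zero_Ev (hρ _)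
  obtain ⟨m, rfl⟩ : ∃ m, n = m + 1 := ⟨n - 1, by omega⟩
  have h1 : ((e.map ρ).map δ * (e.map ρ).map δ) ^ (m + 1) =
      (e.map ρ * ((e.map ρ).map δ * ((e.map ρ).map δ * (e.map ρ).map δ) ^ m)).map δ := by
    rw [map_leib h _ _ hE, map_leib_odd h _ _ hE, eta_closed h hρ, pow_succ', mul_assoc]
    simp
  rw [h1, Matrix.trace, map_sum]
  exact Finset.sum_eq_zero fun i _ => h.closed _

lemma T_trace_comm (h : IsCycle N 𝒜 δ T) (A B : Matrix d d Ω) (hA : ∀ i j, A i j ∈ Ev 𝒜 0)
    (hB : ∀ i j, B i j ∈ Ev 𝒜 0) : T (A * B).trace = T (B * A).trace := by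
  simp only [Matrix.trace, Matrix.diag_apply, Matrix.mul_apply, map_sum]
  rw [Finset.sum_comm]
  exact Finset.sum_congr rfl fun i _ => Finset.sum_congr rfl fun j _ =>
    mul_comm_T h (hA _ _) (hB _ _)

/-- **Vanishing of the pairing of an idempotent matrix over a group algebra with a cycle.** -/
theorem cycle_vanish (hG : ∃ p : ℕ, p.Prime ∧ Sep M p ∧ ∀ g : G, g ^ p = 1 → g = 1)
    {n : ℕ} (hn : 1 ≤ n)
    (h : IsCycle (2 * n) 𝒜 δ T) (hρ : ∀ a, ρ a ∈ 𝒜 0)
    (hloc : ∀ (g : G), g ≠ 1 → (∀ p : ℕ, p.Prime → Sep M p → ∃ j, 1 ≤ j ∧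
        IsConj g (g ^ p ^ j)) →
      ∀ (a : G) (l : List G), l.length = 2 * n → a * l.prod = g →
        T (ρ (MonoidAlgebra.single a 1) *
          (l.map fun b => δ (ρ (MonoidAlgebra.single b 1))).prod) = 0)
    (e : Matrix d d (MonoidAlgebra k G)) (he : e * e = e) :
    (Nat.centralBinom n) • T ((e.map ρ) * ((e.map ρ).map δ) ^ (2 * n)).trace = 0 := by
  have h11 : (1 : Ω) ∈ 𝒜 0 := SetLike.GradedOne.one_mem
  have hE : ∀ i j, (e.map ρ) i j ∈ Ev 𝒜 0 := fun i j => deg_zero_Ev (hρ _)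
  set X0 : Matrix d d (MonoidAlgebra k (FreeMonoid G)) := e.map (sec k G) with hX0
  set Y : Matrix d d (MonoidAlgebra k (FreeMonoid G)) := X0 - X0 * X0 with hY
  have hYI : ∀ i j, Y i j ∈ Idl k (pr G) := by
    intro i j
    have h1 : Y i j = ∑ l, (sec k G (e i l * e l j) - sec k G (e i l) * sec k G (e l j)) := by
      rw [hY, hX0, Matrix.sub_apply, Matrix.mul_apply, Finset.sum_sub_distrib]
      congr 1
      rw [Matrix.map_apply, ← map_sum, ← Matrix.mul_apply, he]
    rw [h1]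
    exact Submodule.sum_mem _ fun l _ => sec_Idl _ _
  have hYpow : ∀ m i j, (Y ^ m) i j ∈ (Idl k (pr G)) ^ m := by
    intro m
    induction m with
    | zero =>
      intro i j
      rw [pow_zero, pow_zero, Matrix.one_apply]
      split_ifs
      · exact Submodule.one_le.mp le_rfl
      · exact Submodule.zero_mem _
    | succ m ih =>
      intro i j
      rw [pow_succ, pow_succ, Matrix.mul_apply]
      exact Submodule.sum_mem _ fun l _ => Submodule.mul_mem_mul (ih i l) (hYI l j)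
  have hX : ∀ i j, (lp n X0 * lp n X0 - lp n X0) i j ∈ (Idl k (pr G)) ^ (n + 1) := by
    obtain ⟨Q, hQ⟩ := lp_ring n X0
    intro i j
    rw [hQ, Matrix.mul_apply]
    exact Submodule.sum_mem _ fun l _ => mul_mem_Idl_pow (pr G) n _ (hYpow (n + 1) l j)
  have hmain := main (d := d) hG (pr G) n (Ph T δ ρ) (Ph_comm h hρ) (Ph_kill h hρ)
    (by
      have h1 : Wm δ ρ (1 : FreeMonoid G) = 1 := map_one _
      unfold Ph
      rw [h1, Module.End.one_apply]
      exact h.dim 0 (by omega) 1 h11)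
    (by
      intro f hf1 hf2
      exact T_Se h hρ (pr G f) (fun a l hl hal => hloc _ hf1 hf2 a l hl hal) (Wm_Se h hρ f))
    (lp n X0) hX
  set t : ℕ → ℕ → M := fun i m => T (wM δ ρ (Y ^ i * X0 ^ m)).trace with ht
  have htf : tf (Ph T δ ρ) (lp n X0) =
      ∑ i ∈ range (n + 1), ((2 * n + 1).choose i) • t i (2 * (n - i) + 1) := by
    have h1 : ∀ Z : Matrix d d (MonoidAlgebra k (FreeMonoid G)),
        tf (Ph T δ ρ) Z = T (wM δ ρ Z).trace := by
      intro Z
      rw [tf_apply, Matrix.trace, map_sum]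
      exact Finset.sum_congr rfl fun i _ => ex_Ph T δ ρ _
    unfold lp
    rw [map_sum]
    refine Finset.sum_congr rfl fun i _ => ?_
    rw [map_nsmul, h1]
  have ht0 : ∀ i, t i 0 = 0 := by
    intro i
    simp only [ht]
    rw [pow_zero, hY, hX0, wM_Ypow h hρ e he, wM_one, mul_one]
    by_cases hi : i = n
    · rw [hi]
      exact T_eta hn h hρ e
    · exact T_trace_zero h (m := 2 * i) (by omega) _ (eta_deg h hρ e i)
  have hw1 : wM δ ρ X0 = e.map ρ := by
    have h1 := wM_mul (δ := δ) (ρ := ρ) e 1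
    rw [mul_one, wM_one, mul_one] at h1
    rw [hX0, h1]
    have h2 : (1 : Matrix d d Ω).map δ = 0 := by
      have := eta_closed h hρ e 0
      rwa [pow_zero] at this
    rw [h2, mul_zero, sub_zero]
  have ht1' : ∀ i, t i 1 =
      T (((e.map ρ).map δ * (e.map ρ).map δ) ^ i * e.map ρ).trace := by
    intro i
    simp only [ht]
    rw [pow_one, hY, hX0, wM_Ypow h hρ e he, ← hX0, hw1]
  have ht1 : ∀ i, i < n → t i 1 = 0 := by
    intro i hi
    rw [ht1']
    refine T_trace_zero h (m := 2 * i + 0) (by omega) _ ?_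
    exact mat_mul_deg (eta_deg h hρ e i) (fun i j => hρ (e i j))
  have ht2 : ∀ i m, t i (m + 2) = t i (m + 1) - t (i + 1) m := by
    intro i m
    simp only [ht]
    rw [← map_sub, ← Matrix.trace_sub, ← wM_sub]
    congr 3
    have h1 : X0 ^ (m + 2) = X0 * X0 * X0 ^ m := by
      rw [pow_succ', pow_succ', mul_assoc]
    have h2 : X0 * X0 = X0 - Y := by rw [hY]; abel
    rw [h1, h2, sub_mul, mul_sub, pow_succ' X0 m, pow_succ Y i, mul_assoc]
  rw [htf, t_sum n t ht2 ht0 ht1, ht1'] at hmain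
  rw [T_trace_comm h _ _ (fun i j => ?_) hE] at hmain
  · rwa [← pow_two, ← pow_mul] at hmain
  · exact mem_Ev 0 n (Nat.zero_le n) (eta_deg h hρ e n i j)

end Pool.Agent.H23R2.Ch
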