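import Pool.Agent.H23R2.Ch.Tr
import Pool.Agent.H23R2.Ch.Defs

/-!
# Traces of lifted idempotents

`F → G` a homomorphism from a monoid to a group, `I` the kernel of `k[F] → k[G]`, `X` a matrix
over `k[F]` which is idempotent modulo `I ^ (n+1)`, `Φ` a trace on `k[F] / I ^ (n+1)`.
-/

set_option autoImplicit false
set_option linter.unusedSectionVars false

namespace Pool.Agent.H23R2.Ch

open Finset Pool.Agent.H23R2 Pool.Agent.H23R2.Cyc
open scoped Pointwise

variable {k : Type*} [CommRing k] {F : Type*} [Monoid F] {M : Type*} [AddCommGroup M] [Module k M]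
  {d : Type*} [Fintype d] [DecidableEq d] {G : Type*} [Group G]

/-- differences of elements of `F` with the same image -/
def Dif (k : Type*) [CommRing k] (π : F →* G) : Set (MonoidAlgebra k F) :=
  {x | ∃ a b : F, π a = π b ∧ MonoidAlgebra.single a 1 - MonoidAlgebra.single b 1 = x}

/-- the kernel ideal -/
noncomputable def Idl (k : Type*) [CommRing k] (π : F →* G) : Submodule k (MonoidAlgebra k F) :=
  Submodule.span k (Dif k π)

/-- homogeneous elements -/
noncomputable def Hm (k : Type*) [CommRing k] (π : F →* G) (h : G) : Submodule k (MonoidAlgebra k F) :=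
  Submodule.span k {x | ∃ f, π f = h ∧ MonoidAlgebra.single f 1 = x}

lemma Hm_mul (π : F →* G) {g h : G} {x y : MonoidAlgebra k F} (hx : x ∈ Hm k π g)
    (hy : y ∈ Hm k π h) : x * y ∈ Hm k π (g * h) := by
  have h1 := Submodule.mul_mem_mul hx hy
  unfold Hm at h1
  rw [Submodule.span_mul_span] at h1
  refine Submodule.span_mono ?_ h1
  rintro z ⟨a, ⟨f, hf, rfl⟩, b, ⟨f', hf', rfl⟩, rfl⟩
  refine ⟨f * f', by rw [map_mul, hf, hf'], ?_⟩
  show _ = MonoidAlgebra.single f (1 : k) * MonoidAlgebra.single f' 1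
  rw [MonoidAlgebra.single_mul_single, one_mul]

lemma Dif_Hm (π : F →* G) {x : MonoidAlgebra k F} (hx : x ∈ Dif k π) : ∃ h, x ∈ Hm k π h := by
  obtain ⟨a, b, hab, rfl⟩ := hx
  exact ⟨π a, Submodule.sub_mem _ (Submodule.subset_span ⟨a, rfl, rfl⟩)
    (Submodule.subset_span ⟨b, hab.symm, rfl⟩)⟩

lemma Dif_pow_Hm (π : F →* G) (n : ℕ) {x : MonoidAlgebra k F} (hx : x ∈ (Dif k π) ^ n) :
    ∃ h, x ∈ Hm k π h := by
  induction n generalizing x with
  | zero =>
    rw [pow_zero, Set.mem_one] at hx
    subst hx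
    exact ⟨1, Submodule.subset_span ⟨1, map_one π, rfl⟩⟩
  | succ n ih =>
    rw [pow_succ] at hx
    obtain ⟨a, ha, b, hb, rfl⟩ := hx
    obtain ⟨g, hg⟩ := ih ha
    obtain ⟨h, hh⟩ := Dif_Hm π hb
    exact ⟨g * h, Hm_mul π hg hh⟩

open Classical in
/-- restriction of a function to a union of fibres -/
noncomputable def cut (π : F →* G) (c : G → Prop) (Φ : F → M) : F → M :=
  fun f => if c (π f) then Φ f else 0

lemma cut_comm (π : F →* G) (c : G → Prop) (hc : ∀ x y, c (x * y) ↔ c (y * x)) (Φ : F → M)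
    (hΦ : ∀ x y, Φ (x * y) = Φ (y * x)) (x y : F) : cut π c Φ (x * y) = cut π c Φ (y * x) := by
  unfold cut
  rw [map_mul, map_mul, hΦ x y]
  by_cases h : c (π x * π y)
  · rw [if_pos h, if_pos ((hc _ _).mp h)]
  · rw [if_neg h, if_neg (fun h' => h ((hc _ _).mp h'))]

lemma ex_cut_Hm (π : F →* G) (c : G → Prop) (Φ : F → M) {h : G} {x : MonoidAlgebra k F}
    (hx : x ∈ Hm k π h) : ex (cut π c Φ) x = 0 ∨ ex (cut π c Φ) x = ex Φ x := by
  by_cases hc : c h
  · right
    have h1 : Set.EqOn (ex (k := k) (cut π c Φ)) (ex Φ)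
        {x | ∃ f, π f = h ∧ MonoidAlgebra.single f 1 = x} := by
      rintro _ ⟨f, hf, rfl⟩
      rw [ex_one_single, ex_one_single, cut, if_pos (hf ▸ hc)]
    exact LinearMap.eqOn_span h1 hx
  · left
    have h1 : Set.EqOn (ex (k := k) (cut π c Φ)) (0 : MonoidAlgebra k F →ₗ[k] M)
        {x | ∃ f, π f = h ∧ MonoidAlgebra.single f 1 = x} := by
      rintro _ ⟨f, hf, rfl⟩
      rw [ex_one_single, cut, if_neg (hf ▸ hc)]
      rfl
    exact LinearMap.eqOn_span h1 hx

lemma ex_cut_kill (π : F →* G) (c : G → Prop) (Φ : F → M) (n : ℕ)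
    (hJ : ∀ x ∈ (Idl k π) ^ n, ex Φ x = 0) : ∀ x ∈ (Idl k π) ^ n, ex (cut π c Φ) x = 0 := by
  intro x hx
  unfold Idl at hx
  rw [Submodule.span_pow] at hx
  have h1 : Set.EqOn (ex (k := k) (cut π c Φ)) (0 : MonoidAlgebra k F →ₗ[k] M)
      ((Dif k π) ^ n) := by
    intro y hy
    obtain ⟨h, hh⟩ := Dif_pow_Hm π n hy
    rcases ex_cut_Hm π c Φ hh with h2 | h2
    · exact h2
    · rw [h2]
      apply hJ
      unfold Idl
      rw [Submodule.span_pow]
      exact Submodule.subset_span hy
  exact LinearMap.eqOn_span h1 hx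

lemma mul_mem_Idl (π : F →* G) (x : MonoidAlgebra k F) {y : MonoidAlgebra k F}
    (hy : y ∈ Idl k π) : x * y ∈ Idl k π := by
  unfold Idl at hy
  induction hy using Submodule.span_induction with
  | zero => rw [mul_zero]; exact Submodule.zero_mem _
  | add y z _ _ h h' => rw [mul_add]; exact Submodule.add_mem _ h h'
  | smul a y _ h => rw [mul_smul_comm]; exact Submodule.smul_mem _ _ h
  | mem y hy =>
    obtain ⟨a, b, hab, rfl⟩ := hy
    induction x using MonoidAlgebra.induction_linear with
    | zero => rw [zero_mul]; exact Submodule.zero_mem _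
    | add y z h h' => rw [add_mul]; exact Submodule.add_mem _ h h'
    | single f r =>
      rw [mul_sub, MonoidAlgebra.single_mul_single, MonoidAlgebra.single_mul_single, mul_one,
        single_eq_smul (f * a), single_eq_smul (f * b), ← smul_sub]
      exact Submodule.smul_mem _ _ (Submodule.subset_span
        ⟨f * a, f * b, by rw [map_mul, map_mul, hab], rfl⟩)

lemma mul_mem_Idl_pow (π : F →* G) (n : ℕ) (x : MonoidAlgebra k F) {y : MonoidAlgebra k F}
    (hy : y ∈ (Idl k π) ^ (n + 1)) : x * y ∈ (Idl k π) ^ (n + 1) := by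
  rw [pow_succ'] at hy ⊢
  induction hy using Submodule.mul_induction_on' with
  | mem_mul_mem u hu v hv =>
    rw [← mul_assoc]
    exact Submodule.mul_mem_mul (mul_mem_Idl π x hu) hv
  | add u _ v _ h h' => rw [mul_add]; exact Submodule.add_mem _ h h'

lemma pow_entries (π : F →* G) (n : ℕ) (X : Matrix d d (MonoidAlgebra k F))
    (hX : ∀ i j, (X * X - X) i j ∈ (Idl k π) ^ (n + 1)) (q : ℕ) (i j : d) :
    (X ^ (q + 1) - X) i j ∈ (Idl k π) ^ (n + 1) := by
  induction q generalizing i j with
  | zero => simp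
  | succ q ih =>
    have h1 : X ^ (q + 1 + 1) - X = X * (X ^ (q + 1) - X) + (X * X - X) := by
      rw [mul_sub, ← pow_succ']
      abel
    rw [h1, Matrix.add_apply, Matrix.mul_apply]
    refine Submodule.add_mem _ (Submodule.sum_mem _ fun l _ => ?_) (hX i j)
    exact mul_mem_Idl_pow π n _ (ih l j)

lemma tf_pow (π : F →* G) (n : ℕ) (X : Matrix d d (MonoidAlgebra k F))
    (hX : ∀ i j, (X * X - X) i j ∈ (Idl k π) ^ (n + 1)) (Φ : F → M)
    (hJ : ∀ x ∈ (Idl k π) ^ (n + 1), ex Φ x = 0) (q : ℕ) (hq : q ≠ 0) :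
    tf Φ (X ^ q) = tf Φ X := by
  obtain ⟨q, rfl⟩ : ∃ q', q = q' + 1 := ⟨q - 1, by omega⟩
  have h1 : tf Φ (X ^ (q + 1) - X) = 0 := by
    rw [tf_apply]
    exact Finset.sum_eq_zero fun i _ => hJ _ (pow_entries π n X hX q i i)
  rw [map_sub] at h1
  exact sub_eq_zero.mp h1

lemma ker_div {p : ℕ} [hp : Fact p.Prime] (π : F →* G) (n : ℕ) (Φ : F → M)
    (hJ : ∀ x ∈ (Idl k π) ^ (n + 1), ex Φ x = 0) (h1 : Φ 1 = 0) (m : ℕ) (f : F) (hf : π f = 1) :
    ∃ y : M, p ^ m • y = Φ (f ^ p ^ (m + n)) := by
  let z : MonoidAlgebra k F := MonoidAlgebra.single f 1 - 1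
  have hz : z ∈ Idl k π :=
    Submodule.subset_span ⟨f, 1, by rw [hf, map_one], by rw [← MonoidAlgebra.one_def]⟩
  have e1 : ∀ N : ℕ, MonoidAlgebra.single (f ^ N) (1 : k) =
      ∑ s ∈ range (N + 1), (N.choose s) • z ^ s := by
    intro N
    have h2 : MonoidAlgebra.single f (1 : k) = z + 1 := by simp [z]
    have h3 : MonoidAlgebra.single (f ^ N) (1 : k) = (MonoidAlgebra.single f (1 : k)) ^ N := by
      rw [MonoidAlgebra.single_pow, one_pow]
    rw [h3, h2, (Commute.one_right z).add_pow]
    refine Finset.sum_congr rfl fun s _ => ?_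
    rw [one_pow, mul_one, nsmul_eq_mul, (Nat.cast_commute _ _).eq]
  have e2 : Φ (f ^ p ^ (m + n)) = ∑ s ∈ range (p ^ (m + n) + 1),
      ((p ^ (m + n)).choose s) • ex Φ (z ^ s) := by
    rw [← ex_one_single (k := k) Φ, e1, map_sum]
    exact Finset.sum_congr rfl fun s _ => map_nsmul _ _ _
  have e3 : ∀ s ∈ range (p ^ (m + n) + 1), ∃ y : M,
      p ^ m • y = ((p ^ (m + n)).choose s) • ex Φ (z ^ s) := by
    intro s hs
    rcases Nat.eq_zero_or_pos s with rfl | hs0
    · refine ⟨0, ?_⟩
      rw [pow_zero, MonoidAlgebra.one_def, ex_one_single, h1, smul_zero, smul_zero]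
    by_cases hsn : n + 1 ≤ s
    · refine ⟨0, ?_⟩
      have h2 : z ^ s ∈ (Idl k π) ^ (n + 1) := by
        obtain ⟨t, rfl⟩ := Nat.exists_eq_add_of_le' hsn
        rw [pow_add z]
        exact mul_mem_Idl_pow π n _ (Submodule.pow_mem_pow _ hz (n + 1))
      rw [hJ _ h2, smul_zero, smul_zero]
    · have hle : s ≤ p ^ (m + n) := by
        have := Finset.mem_range.mp hs
        omega
      have h2 : p ^ m ∣ (p ^ (m + n)).choose s := by
        rw [hp.out.pow_dvd_iff_le_factorization (Nat.choose_pos hle).ne',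
          Nat.factorization_choose_prime_pow hp.out hle hs0.ne']
        have h3 : s.factorization p < s := Nat.factorization_lt p hs0.ne'
        omega
      obtain ⟨c, hc⟩ := h2
      exact ⟨c • ex Φ (z ^ s), by rw [hc, mul_smul]⟩
  choose! y hy using e3
  refine ⟨∑ s ∈ range (p ^ (m + n) + 1), y s, ?_⟩
  rw [e2, Finset.smul_sum]
  exact Finset.sum_congr rfl hy

open Classical in
/-- **Main theorem**. Traces of lifted idempotents. -/
theorem main (hG : ∃ p : ℕ, p.Prime ∧ Sep M p ∧ ∀ g : G, g ^ p = 1 → g = 1)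
    (π : F →* G) (n : ℕ)
    (Φ : F → M) (hΦ : ∀ x y, Φ (x * y) = Φ (y * x))
    (hJ : ∀ x ∈ (Idl k π) ^ (n + 1), ex Φ x = 0) (h1 : Φ 1 = 0)
    (hloc : ∀ f, π f ≠ 1 → (∀ p : ℕ, p.Prime → Sep M p → ∃ j, 1 ≤ j ∧
      IsConj (π f) ((π f) ^ p ^ j)) → Φ f = 0)
    (X : Matrix d d (MonoidAlgebra k F))
    (hX : ∀ i j, (X * X - X) i j ∈ (Idl k π) ^ (n + 1)) : tf Φ X = 0 := by
  have key : ∀ C : ConjClasses G, tf (cut π (fun h => ConjClasses.mk h = C) Φ) X = 0 := by
    intro C
    obtain ⟨g, rfl⟩ := ConjClasses.exists_rep C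
    have hconj : ∀ h, ConjClasses.mk h = ConjClasses.mk g ↔ IsConj h g := fun h =>
      ConjClasses.mk_eq_mk_iff_isConj
    have hcomm : ∀ x y : G, (ConjClasses.mk (x * y) = ConjClasses.mk g) ↔
        (ConjClasses.mk (y * x) = ConjClasses.mk g) := by
      intro x y
      have h2 : ConjClasses.mk (x * y) = ConjClasses.mk (y * x) := by
        rw [ConjClasses.mk_eq_mk_iff_isConj, isConj_iff]
        exact ⟨x⁻¹, by group⟩
      rw [h2]
    set c : G → Prop := fun h => ConjClasses.mk h = ConjClasses.mk g with hc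
    have hΦ' := cut_comm π c hcomm Φ hΦ
    have hJ' := ex_cut_kill π c Φ (n + 1) hJ
    have hXp := tf_pow π n X hX (cut π c Φ) hJ'
    by_cases hg1 : g = 1
    · obtain ⟨p, hp, hM, hG⟩ := hG
      have : Fact p.Prime := ⟨hp⟩
      apply hM
      intro m
      apply tf_divisible (cut π c Φ) hΦ' X hXp m
      intro W
      refine ⟨m + n, fun w _ => ?_⟩
      by_cases hw : π w = 1
      · refine ker_div π n _ hJ' ?_ m w hw
        unfold cut
        rw [h1]
        split_ifs <;> rfl
      · refine ⟨0, ?_⟩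
        have h2 : ¬ c (π (w ^ p ^ (m + n))) := by
          intro h3
          rw [hc] at h3
          rw [hconj, hg1, isConj_one_left, map_pow] at h3
          have h4 : ∀ t : ℕ, (π w) ^ p ^ t = 1 → π w = 1 := by
            intro t
            induction t with
            | zero => intro h5; simpa using h5
            | succ t ih =>
              intro h5
              rw [pow_succ, pow_mul] at h5
              exact ih (hG _ h5)
          exact hw (h4 _ h3)
        unfold cut
        rw [if_neg h2, smul_zero]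
    · by_cases hbad : ∀ p : ℕ, p.Prime → Sep M p → ∃ j, 1 ≤ j ∧ IsConj g (g ^ p ^ j)
      · have h2 : ∀ f, cut π c Φ f = 0 := by
          intro f
          unfold cut
          split_ifs with h3
          · rw [hc] at h3
            rw [hconj] at h3
            apply hloc f
            · intro h4
              rw [h4, isConj_one_right] at h3
              exact hg1 h3
            · intro p hp hM
              obtain ⟨j, hj, hgj⟩ := hbad p hp hM
              refine ⟨j, hj, h3.trans (hgj.trans ?_)⟩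
              obtain ⟨c, hc⟩ := isConj_iff.mp h3
              rw [isConj_iff]
              refine ⟨c⁻¹, ?_⟩
              rw [← hc, conj_pow]
              group
          · rfl
        rw [tf_eq, ex_eq_sum]
        exact Finset.sum_eq_zero fun f _ => by rw [h2, smul_zero]
      · push Not at hbad
        obtain ⟨p, hp, hM, hbad⟩ := hbad
        have : Fact p.Prime := ⟨hp⟩
        apply hM
        intro m
        apply tf_divisible (cut π c Φ) hΦ' X hXp m
        intro W
        have hfin : {K : ℕ | ∃ w ∈ W, c (π (w ^ p ^ K))}.Finite := by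
          have h2 : {K : ℕ | ∃ w ∈ W, c (π (w ^ p ^ K))} ⊆
              ⋃ w ∈ W, {K : ℕ | c (π (w ^ p ^ K))} := by
            rintro K ⟨w, hw, hK⟩
            exact Set.mem_biUnion hw hK
          refine Set.Finite.subset (W.finite_toSet.biUnion fun w _ => ?_) h2
          apply Set.Subsingleton.finite
          have h3 : ∀ a b : ℕ, a < b → c (π (w ^ p ^ a)) → c (π (w ^ p ^ b)) → False := by
            intro a b hab ha hb
            rw [hc] at ha hb
            simp only [hconj, map_pow] at ha hb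
            apply hbad (b - a) (by omega)
            have h4 : (π w) ^ p ^ b = ((π w) ^ p ^ a) ^ p ^ (b - a) := by
              rw [← pow_mul, ← pow_add]
              congr 2
              omega
            rw [h4] at hb
            obtain ⟨u, hu⟩ := isConj_iff.mp ha
            refine (hb.symm).trans ?_
            rw [isConj_iff]
            refine ⟨u, ?_⟩
            rw [← hu, conj_pow]
          intro a ha b hb
          by_contra hne
          rcases Nat.lt_or_gt_of_ne hne with h4 | h4
          · exact h3 a b h4 ha hb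
          · exact h3 b a h4 hb ha
        obtain ⟨K, hK⟩ := Infinite.exists_notMem_finset hfin.toFinset
        refine ⟨K, fun w hw => ⟨0, ?_⟩⟩
        have h2 : ¬ c (π (w ^ p ^ K)) := by
          intro h3
          apply hK
          rw [Set.Finite.mem_toFinset]
          exact ⟨w, hw, h3⟩
        unfold cut
        rw [if_neg h2, smul_zero]
  -- assemble
  let S : Finset (ConjClasses G) := X.trace.coeff.support.image fun f => ConjClasses.mk (π f)
  have h2 : tf Φ X = ∑ C ∈ S, tf (cut π (fun h => ConjClasses.mk h = C) Φ) X := by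
    rw [tf_eq, ex_eq_sum]
    simp only [tf_eq, ex_eq_sum]
    rw [Finset.sum_comm]
    refine Finset.sum_congr rfl fun f hf => ?_
    rw [← Finset.smul_sum]
    congr 1
    unfold cut
    beta_reduce
    rw [Finset.sum_eq_single (ConjClasses.mk (π f)), if_pos rfl]
    · intro C _ hC
      rw [if_neg (Ne.symm hC)]
    · intro hne
      exact absurd (Finset.mem_image_of_mem _ hf) hne
  rw [h2]
  exact Finset.sum_eq_zero fun C _ => key C

end Pool.Agent.H23R2.Ch
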