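import Pool.Agent.H23R2.CycWord

/-!
# Module valued traces on matrices over monoid algebras
-/

set_option autoImplicit false
set_option linter.unusedSectionVars false
set_option linter.unusedSimpArgs false

namespace Pool.Agent.H23R2.Ch

open Finset Pool.Agent.H23R2 Pool.Agent.H23R2.Cyc

variable {k : Type*} [CommRing k] {F : Type*} [Monoid F] {M : Type*} [AddCommGroup M] [Module k M]
  {d : Type*} [Fintype d] [DecidableEq d]

/-- the linear functional on the monoid algebra given by a function on the monoid -/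
noncomputable def ex (Φ : F → M) : MonoidAlgebra k F →ₗ[k] M :=
  (MonoidAlgebra.basis F k).constr k Φ

lemma ex_one_single (Φ : F → M) (f : F) : ex (k := k) Φ (MonoidAlgebra.single f 1) = Φ f := by
  have h := (MonoidAlgebra.basis F k).constr_basis k Φ f
  rwa [MonoidAlgebra.basis_apply] at h

lemma single_eq_smul (f : F) (a : k) :
    MonoidAlgebra.single f a = a • (MonoidAlgebra.single f (1 : k)) := by
  simp

lemma ex_single (Φ : F → M) (f : F) (a : k) : ex Φ (MonoidAlgebra.single f a) = a • Φ f := by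
  rw [single_eq_smul, map_smul, ex_one_single]

lemma ex_mul_comm (Φ : F → M) (hΦ : ∀ x y, Φ (x * y) = Φ (y * x)) (x y : MonoidAlgebra k F) :
    ex Φ (x * y) = ex Φ (y * x) := by
  induction x using MonoidAlgebra.induction_linear with
  | zero => simp
  | add x x' h h' => simp only [add_mul, mul_add, map_add, h, h']
  | single g r =>
    induction y using MonoidAlgebra.induction_linear with
    | zero => simp
    | add y y' h h' => simp only [add_mul, mul_add, map_add, h, h']
    | single g' r' =>
      rw [MonoidAlgebra.single_mul_single, MonoidAlgebra.single_mul_single, ex_single,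
        ex_single, hΦ, mul_comm r]

lemma ex_eq_sum (Φ : F → M) (x : MonoidAlgebra k F) :
    ex Φ x = ∑ f ∈ x.coeff.support, x.coeff f • Φ f := by
  have h1 : x = ∑ g ∈ x.coeff.support, MonoidAlgebra.single g (x.coeff g) := by
    apply MonoidAlgebra.coeff_injective
    ext h
    rw [MonoidAlgebra.coeff_sum, Finset.sum_apply']
    by_cases hh : h ∈ x.coeff.support
    · rw [Finset.sum_eq_single h]
      · simp
      · intro g _ hgh
        simp [Finsupp.single_apply, hgh]
      · intro h'; exact absurd hh h'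
    · rw [Finset.sum_eq_zero]
      · by_contra hne
        exact hh (Finsupp.mem_support_iff.mpr hne)
      · intro g hg
        have : g ≠ h := fun e => hh (e ▸ hg)
        simp [Finsupp.single_apply, this]
  conv_lhs => rw [h1]
  rw [map_sum]
  exact Finset.sum_congr rfl fun g _ => ex_single Φ g _

/-- the trace functional on matrices -/
noncomputable def tf (Φ : F → M) : Matrix d d (MonoidAlgebra k F) →+ M :=
  (ex Φ).toAddMonoidHom.comp (Matrix.traceAddMonoidHom d (MonoidAlgebra k F))

lemma tf_apply (Φ : F → M) (X : Matrix d d (MonoidAlgebra k F)) :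
    tf Φ X = ∑ i, ex Φ (X i i) := by
  simp [tf, Matrix.trace]

lemma tf_eq (Φ : F → M) (X : Matrix d d (MonoidAlgebra k F)) :
    tf Φ X = ex Φ X.trace := rfl

lemma tf_mul_comm (Φ : F → M) (hf : ∀ x y, Φ (x * y) = Φ (y * x))
    (X Y : Matrix d d (MonoidAlgebra k F)) : tf Φ (X * Y) = tf Φ (Y * X) := by
  rw [tf_apply, tf_apply]
  simp only [Matrix.mul_apply, map_sum]
  rw [Finset.sum_comm]
  exact Finset.sum_congr rfl fun i _ => Finset.sum_congr rfl fun j _ => ex_mul_comm Φ hf _ _

/-- the matrix `A ⊗ g` -/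
noncomputable def io (A : Matrix d d k) (g : F) : Matrix d d (MonoidAlgebra k F) :=
  A.map (MonoidAlgebra.single g)

lemma io_mul (A B : Matrix d d k) (g h : F) : io A g * io B h = io (A * B) (g * h) := by
  ext1 i k
  simp only [io, Matrix.mul_apply, Matrix.map_apply, MonoidAlgebra.single_mul_single]
  exact (map_sum (MonoidAlgebra.singleAddHom (g * h)) _ _).symm

lemma io_one : io (1 : Matrix d d k) (1 : F) = 1 := by
  ext1 i k
  simp only [io, Matrix.map_apply, Matrix.one_apply]
  split_ifs
  · exact (MonoidAlgebra.one_def).symm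
  · simp

lemma io_pow (A : Matrix d d k) (g : F) (n : ℕ) : (io A g) ^ n = io (A ^ n) (g ^ n) := by
  induction n with
  | zero => simp [io_one]
  | succ n ih => rw [pow_succ, ih, io_mul, ← pow_succ, ← pow_succ]

lemma io_mpr {n : ℕ} (A : ZMod n → Matrix d d k) (g : ZMod n → F) (c : ZMod n) (m : ℕ) :
    mpr (fun i => io (A i) (g i)) c m = io (mpr A c m) (mpr g c m) := by
  induction m with
  | zero => exact io_one.symm
  | succ m ih => rw [mpr, ih, io_mul]; rfl

lemma tf_io (Φ : F → M) (A : Matrix d d k) (g : F) : tf Φ (io A g) = A.trace • Φ g := by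
  rw [tf_apply]
  simp only [io, Matrix.map_apply, ex_single]
  rw [← Finset.sum_smul]
  rfl

open Classical in
/-- a finite set containing the supports of all the entries -/
noncomputable def msupp (X : Matrix d d (MonoidAlgebra k F)) : Finset F :=
  univ.biUnion fun i => univ.biUnion fun j => (X i j).coeff.support

lemma mem_msupp (X : Matrix d d (MonoidAlgebra k F)) (i j : d) (g : F)
    (h : (X i j).coeff g ≠ 0) : g ∈ msupp X := by
  unfold msupp
  simp only [Finset.mem_biUnion, Finset.mem_univ, true_and, Finsupp.mem_support_iff]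
  exact ⟨i, j, h⟩

/-- the coefficient matrix -/
def cm (X : Matrix d d (MonoidAlgebra k F)) (g : F) : Matrix d d k :=
  Matrix.of fun i j => (X i j).coeff g

lemma eq_sum_io (X : Matrix d d (MonoidAlgebra k F)) :
    X = ∑ s : {g // g ∈ msupp X}, io (cm X s.1) s.1 := by
  ext1 i j
  rw [Matrix.sum_apply]
  simp only [io, Matrix.map_apply, cm, Matrix.of_apply]
  apply MonoidAlgebra.coeff_injective
  ext h
  rw [MonoidAlgebra.coeff_sum, Finset.sum_apply']
  by_cases hh : h ∈ msupp X
  · rw [Finset.sum_eq_single ⟨h, hh⟩]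
    · simp
    · intro g _ hgh
      have : g.1 ≠ h := fun e => hgh (Subtype.ext e)
      simp [Finsupp.single_apply, this]
    · intro h'; exact absurd (mem_univ _) h'
  · rw [Finset.sum_eq_zero]
    · by_contra hne
      exact hh (mem_msupp X i j h hne)
    · intro g _
      have : g.1 ≠ h := fun e => hh (e ▸ g.2)
      simp [Finsupp.single_apply, this]

/-- A trace of a matrix all of whose powers have the same trace is divisible by `p ^ m` as soon
as the function is divisible by `p ^ m` on high `p`-power powers. -/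
theorem tf_divisible {p : ℕ} [hp : Fact p.Prime] (Φ : F → M) (hΦ : ∀ x y, Φ (x * y) = Φ (y * x))
    (X : Matrix d d (MonoidAlgebra k F)) (hX : ∀ q : ℕ, q ≠ 0 → tf Φ (X ^ q) = tf Φ X) (m : ℕ)
    (hgood : ∀ W : Finset F, ∃ K : ℕ, ∀ w ∈ W, ∃ y : M, p ^ m • y = Φ (w ^ p ^ K)) :
    ∃ y : M, p ^ m • y = tf Φ X := by
  classical
  let W : Finset F := (univ : Finset (Fin (p ^ m) → {g // g ∈ msupp X})).image
    fun v => (List.ofFn fun i => (v i).1).prod
  obtain ⟨K, hK⟩ := hgood W
  let N : Submodule k M := LinearMap.range (LinearMap.lsmul k M ((p : k) ^ m))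
  have hN : ∀ x : M, x ∈ N ↔ ∃ y, p ^ m • y = x := by
    intro x
    simp only [N, LinearMap.mem_range, LinearMap.lsmul_apply]
    refine exists_congr fun y => ?_
    rw [← Nat.cast_pow, Nat.cast_smul_eq_nsmul]
  have hM : ∀ x : M ⧸ N, p ^ m • x = 0 := by
    intro x
    obtain ⟨x, rfl⟩ := N.mkQ_surjective x
    rw [← map_nsmul, Submodule.mkQ_apply, Submodule.Quotient.mk_eq_zero, hN]
    exact ⟨x, rfl⟩
  let T : Matrix d d (MonoidAlgebra k F) →+ M ⧸ N := N.mkQ.toAddMonoidHom.comp (tf Φ)
  have hT : ∀ x y, T (x * y) = T (y * x) := by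
    intro x y
    show N.mkQ (tf Φ (x * y)) = N.mkQ (tf Φ (y * x))
    rw [tf_mul_comm Φ hΦ]
  have hn : p ^ (m + K) ≠ 0 := pow_ne_zero _ hp.out.ne_zero
  have : NeZero (p ^ (m + K)) := ⟨hn⟩
  have h1 := trace_pow T hT K (p ^ (m + K)) rfl hM
    (fun s : {g // g ∈ msupp X} => io (cm X s.1) s.1)
  rw [← eq_sum_io] at h1
  have h2 : T (X ^ p ^ (m + K)) = N.mkQ (tf Φ X) := by
    show N.mkQ (tf Φ (X ^ p ^ (m + K))) = _
    rw [hX _ hn]
  rw [h2, Finset.sum_eq_zero] at h1
  · rw [Submodule.mkQ_apply, Submodule.Quotient.mk_eq_zero, hN] at h1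
    exact h1
  · intro w _
    rw [io_mpr (fun i => cm X (w i).1) (fun i => (w i).1), io_pow]
    show N.mkQ (tf Φ _) = 0
    rw [tf_io, map_smul, mpr_eq_ofFn (fun i => (w i).1)]
    obtain ⟨y, hy⟩ := hK (List.ofFn fun i : Fin (p ^ m) => (w (0 + ((i : ℕ) : ZMod _))).1).prod
      (Finset.mem_image.mpr ⟨fun i => w (0 + ((i : ℕ) : ZMod _)), mem_univ _, rfl⟩)
    rw [← hy, map_nsmul, hM, smul_zero]

end Pool.Agent.H23R2.Ch
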